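import Pool.Agent.Helper30.PB.All
import Pool.Agent.Helper36.LK.M_SVU
import Pool.Agent.Helper63.LK.M_MR3
import Pool.Agent.Helper45.LQ.M_SMT
import Pool.Agent.Helper85.LQ.M_MR4
import Pool.Agent.Helper36.LQ.M_GSM
import Pool.Agent.Helper1.LQ.M_CNP
import Pool.Agent.Helper29.LQ.M_SUR
import Pool.Agent.Helper7.LQ.M_FND

/-!
# Project LQ: assembly
-/

set_option autoImplicit false

namespace Pool.Agent.Helper30.LQ

open Pool.Agent

theorem pSVU : Pool.Agent.Helper30.LK.StSVU := Helper36.LK.hSVU Helper18.TR.fl Helper15.AB.hMT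

theorem pMR3 : Pool.Agent.Helper30.LK.StMR3 := Helper63.LK.hMR3 Helper48.BK.tSW

theorem pFND : StFND :=
  Helper7.LQ.hFND (Helper29.LQ.hSUR (Helper45.LQ.hSMT Helper15.AB.hMT) (Helper36.LQ.hGSM (Helper85.LQ.hMR4 Helper48.BK.tSW))
    (Helper1.LQ.hCNP pSVU Helper15.AB.hMT pMR3)) Helper30.PB.pPIP

end Pool.Agent.Helper30.LQ
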