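import Pool.Agent.Helper30.LK.St

/-!
# Project LQ (MP_d57c14_nt): for infinitely many `n` there is no `k ≤ c log n log log n log₄ n / (log₃ n) ^ (3/2)` with
`n ^ 2 - n k + k ^ 2` prime.  Statements of the modules, with proofs.

`f = n ^ 2 - n k + k ^ 2` (`= k ^ 2 + k (n - k) + (n - k) ^ 2`). Erdős-Rankin: `n ≡ 0` modulo the primes `l ≤ x` with `l ≢ 1 (3)` and modulo the primes `l ≡ 1 (3)` in `(y, x / 2]` (`l ∣ f` if `l ∣ k`), `n ≡ 1` modulo the primes `l ≡ 1 (3)`, `l ≤ y` (`f ≡ k ^ 2 - k + 1`), `y = yy x`; the surviving `k ≤ K` (`Sv x K`)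
are `y`-smooth (few) or `k = a p`, `p > x / 2` prime, `a ≤ 2 K / x` a product of primes `≡ 1 (3)`; they are removed one by one by the primes `l ≡ 1 (3)` in `(x / 2, x]`, with `n ≡ k r`, `r ^ 2 - r + 1 ≡ 0`.
-/

set_option autoImplicit false

noncomputable section

namespace Pool.Agent.Helper30.LQ

open Finset
open Pool.Agent.Helper15.AB (StMT)
open Pool.Agent.Helper48.BK (StSW th)
open Pool.Agent.Helper30.PB (StPIP)
open Pool.Agent.Helper30.LK (StSVU StMR3)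

/-- the parameter `y` -/
def yy (x : ℕ) : ℝ := Real.exp (Real.log x * Real.log (Real.log (Real.log x)) / (20 * Real.log (Real.log x)))

open Classical in
/-- the surviving `k ≤ K` -/
def Sv (x K : ℕ) : Finset ℕ :=
  (Icc 1 K).filter (fun k : ℕ => (∀ l : ℕ, l.Prime → ((l % 3 ≠ 1 ∧ l ≤ x) ∨ (l % 3 = 1 ∧ yy x < (l : ℝ) ∧ 2 * l ≤ x)) → ¬ l ∣ k) ∧
    ∀ l : ℕ, l.Prime → l % 3 = 1 → (l : ℝ) ≤ yy x → ¬ (l : ℤ) ∣ (k : ℤ) ^ 2 - k + 1)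

/-- the loss of the sieve at the primes dividing `a` -/
def gg (a : ℕ) : ℝ := Real.exp (2 * ∑ l ∈ a.primeFactors, (1 : ℝ) / l)

open Classical in
/-- (SMT, assume `hM : StMT`.) Smooth numbers (Rankin). PROOF. `η = log w / log z ≤ 1/4`, `s = 1 - η ≥ 3/4`. The number is at most `∑_m (Y / m) ^ s = Y exp(- η log Y) ∑ m ^ (- s)`, and `∑ m ^ (- s) ≤ ∏_{l ≤ z} 1 / (1 - l ^ (- s))` (finite Euler product, over the integers all of whose prime factors are `≤ z`; Mathlib `Nat.smoothNumbers` / `EulerProduct`, or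
induction over the set of primes). `l ^ (- s) ≤ 2 ^ (- 3/4) ≤ 3/5` and `1 / (1 - t) ≤ exp(t + 2 t ^ 2)` for `0 ≤ t ≤ 3/5`. `∑_l 2 l ^ (- 2 s) ≤ 2 ∑ n ^ (- 3/2)` is bounded. `∑_{l ≤ z} l ^ (- s) = ∑ 1 / l + ∑ (l ^ η - 1) / l`, `∑ 1 / l ≤ log log z + C` (StMT), `l ^ η - 1 ≤ η (log l) l ^ η ≤ η w log l`, and
`∑_{l ≤ z} (log l) / l ≤ 4 log z + 4` (dyadic ranges, `primorial_le_4_pow`), so the second sum is at most `(log w / log z) w (4 log z + 4) ≤ 8 w log w`. -/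
def StSMT : Prop := ∃ C : ℝ, 0 < C ∧ ∃ z₀ : ℝ, 3 ≤ z₀ ∧ ∀ z w : ℝ, z₀ ≤ z → 1 ≤ w → w ≤ z ^ (1 / 4 : ℝ) → ∀ Y : ℕ, 1 ≤ Y →
  (((Icc 1 Y).filter (fun m => ∀ l : ℕ, l.Prime → l ∣ m → (l : ℝ) ≤ z)).card : ℝ) ≤
    C * Y * Real.log z * Real.exp (-((Real.log Y / Real.log z - 8 * w) * Real.log w))

open Classical in
/-- (MR4, assume `hS : StSW`.) Mertens modulo 3, upper bound for the class 1. PROOF. As `Pool.Agent.Helper63.LK.hMR3` (StSW with `q = 3`, `A = 2`, Abel summation), the other direction. -/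
def StMR4 : Prop := ∃ C : ℝ, 0 < C ∧ ∀ y : ℝ, 3 ≤ y →
  ∑ l ∈ (Icc 1 ⌊y⌋₊).filter (fun l => l.Prime ∧ l % 3 = 1), (1 : ℝ) / l ≤ Real.log (Real.log y) / 2 + C

open Classical in
/-- (GSM, assume `hM : StMR4`.) PROOF. `gg a = ∏_{l ∣ a} e ^ (2 / l)`. The sum is at most `∏ (1 + ∑_{j ≥ 1} e ^ (2 / l) / l ^ j) = ∏ (1 + e ^ (2 / l) / (l - 1))` over the primes `l ≡ 1 (3)`, `l ≤ V` (finite Euler product), `e ^ (2 / l) / (l - 1) ≤ 1 / l + 5 / l ^ 2` (`l ≥ 7`), and MR4: at most `exp(∑ 1 / l + C) ≤ C' √(log V)`. -/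
def StGSM : Prop := ∃ C : ℝ, 0 < C ∧ ∀ V : ℕ, 3 ≤ V →
  ∑ a ∈ (Icc 1 V).filter (fun a => ∀ l : ℕ, l.Prime → l ∣ a → l % 3 = 1), gg a / a ≤ C * √(Real.log V)

open Classical in
/-- (CNP, assume `hS : StSVU`, `hM : StMT`, `h3 : StMR3`.) PROOF. SVU with `S l = {0} ∪ {s < l : l ∣ (a s) ^ 2 - a s + 1}` for `l ≡ 1 (3)`, `l ≤ yy x`, `l ∤ a` (three classes: `- 3` is a square modulo `l`, the two roots are different and not 0), `S l = {0}` for the other `l`. If `p` is counted and `p % l ∈ S l`, `7 ≤ l ≤ Y ^ δ`, then `l ∣ p`, `p = l ≤ Y ^ (1/4)`.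
`∑ |S l| / l ≥ ∑_{l ≤ Y ^ δ} 1 / l + 2 ∑_{l ≡ 1, l ≤ yy x} 1 / l - 2 ∑_{l ∣ a} 1 / l - C ≥ log log Y + log log (yy x) - 2 ∑_{l ∣ a} 1 / l - C'` (`yy x ≤ Y ^ δ` for large `x`, because `log (yy x) = o(log x)`). `Y ≥ x / 2`, so `log Y ≥ (log x) / 2`; `Y ^ (1/4)` is small and `gg a ≥ 1`. -/
def StCNP : Prop := ∃ C : ℝ, 0 < C ∧ ∃ x₀ : ℕ, ∀ x a Y : ℕ, x₀ ≤ x → 1 ≤ a → x ≤ 2 * Y → (Y : ℝ) ≤ (x : ℝ) ^ (5 / 4 : ℝ) →
  (((Icc 1 Y).filter (fun p : ℕ => p.Prime ∧ ∀ l : ℕ, l.Prime → l % 3 = 1 → (l : ℝ) ≤ yy x →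
    ¬ (l : ℤ) ∣ ((a : ℤ) * (p : ℤ)) ^ 2 - a * p + 1)).card : ℝ) ≤ C * (gg a * Y / (Real.log x * Real.log (yy x)))

/-- (SUR, assume `hT : StSMT`, `hG : StGSM`, `hC : StCNP`.) Write `L₂ = log log x`, `L₃ = log log log x`, `y = yy x`, `log y = log x L₃ / (20 L₂)`. PROOF. Let `k ∈ Sv x K`. (1) All prime factors of `k` are `≤ y`: SMT with `z = y`, `w = L₂ / L₃` (`≤ y ^ (1/4)`), `log K / log y ≥ 20 L₂ / L₃`, so the exponent is at least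
`12 (L₂ / L₃) log (L₂ / L₃) ≥ 6 L₂`: at most `C K (log x) (log x) ^ (- 6) ≤ C x / (log x) ^ 2` such `k`. (2) Otherwise a prime `p > y` divides `k`, and `2 p > x` (if `p ≢ 1 (3)`, even `p > x`; here `y < p`, and `p ∣ k` excludes `p ≤ x`, resp. `2 p ≤ x`). `k = a p`, `a ≤ 2 K / x ≤ 2 log x`; every prime factor `l` of `a` is `≤ 2 log x`, so
`≤ y` and `≤ x`, and `l ≡ 1 (3)`. With `Y = ⌊K / a⌋ ≥ p > x / 2` the number of these `p` is at most `C gg(a) (K / a) / (log x log y)` (CNP), and GSM with `V = ⌊2 log x⌋` gives the first term. -/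
def StSUR : Prop := ∃ C : ℝ, 0 < C ∧ ∃ x₀ : ℕ, ∀ x K : ℕ, x₀ ≤ x → x ≤ K → (K : ℝ) ≤ x * Real.log x →
  ((Sv x K).card : ℝ) ≤ C * (K * √(Real.log (Real.log x)) / (Real.log x * Real.log (yy x)) + x / Real.log x ^ 2)

/-- (FND, assume `hS : StSUR`, `hP : StPIP`.) PROOF. `K = ⌊c₁ x log (yy x) / √(log log x)⌋` (between `x` and `x log x` for large `x`), `c₁ = 1 / (200 C)` (and `≤ 1`): `|Sv x K| ≤ C c₁ x / log x + C x / (log x) ^ 2 ≤ x / (100 log x)`, at most the number of the primes `l ≡ 1 (3)` in `(x / 2, x]` (PIP, `Q = 3`, `v = 1`, `X = x / 2`: at least `x / (48 log x)`).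
Choose an injection `k ↦ l_k` of `Sv x K` into these primes, `r_k` with `l_k ∣ r_k ^ 2 - r_k + 1`, and by the Chinese remainder theorem `n ∈ [P, 2 P)`, `P = ∏_{l ≤ x} l` (all primes), with `n ≡ 0` modulo `l` for the primes `l ≤ x`, `l ≢ 1 (3)`, and for `l ≡ 1 (3)`, `yy x < l ≤ x / 2`; `n ≡ 1` modulo `l` for `l ≡ 1 (3)`, `l ≤ yy x`;
`n ≡ k r_k` modulo `l_k` (note `yy x ≤ x / 2` for large `x`). Let `1 ≤ k ≤ K`, `f = n ^ 2 - n k + k ^ 2`. If `k ∉ Sv x K`, some `l` of the first kind divides `k` and `n`, so `f`, or some `l ≤ yy x`, `l ≡ 1 (3)`, divides `k ^ 2 - k + 1 ≡ f`. If `k ∈ Sv x K`: `f ≡ k ^ 2 (r_k ^ 2 - r_k + 1) ≡ 0` modulo `l_k`. `f ≥ n ^ 2 / 2 > x`: `f` is not prime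
(`f = k ^ 2 + k (n - k) + (n - k) ^ 2`, `k ≤ K < n / 2`). `log n ≤ log (2 P) ≤ 2 x` (`primorial_le_4_pow`), `log n ≥ log P ≥ x / 100` (the primes in `(x / 2, x]`), so for large `x`: `log log n ≤ 2 log x`, `log log log n ≥ (log log x) / 2`, `0 < log log log log n ≤ 2 log log log x`, and
`log n log log n log₄ n / (log₃ n) ^ (3/2) ≤ 32 x log x log₃ x / (log log x) ^ (3/2) = 640 x log (yy x) / √(log log x)`; take `c = c₁ / 1280`. `n ≥ P ≥ n₀` for large `x`. -/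
def StFND : Prop := ∃ c : ℝ, 0 < c ∧ ∀ n₀ : ℕ, ∃ n : ℕ, n₀ ≤ n ∧ ∀ k : ℕ, 1 ≤ k →
  (k : ℝ) ≤ c * (Real.log n * Real.log (Real.log n) * Real.log (Real.log (Real.log (Real.log n))) /
    Real.log (Real.log (Real.log n)) ^ (3 / 2 : ℝ)) →
  2 * k ≤ n ∧ ¬ (k ^ 2 + k * (n - k) + (n - k) ^ 2).Prime

end Pool.Agent.Helper30.LQ
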